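import Pool.Agent.GPH.IIStmts

/-!
# GPJ: several systems of periods `y² = f + s` at once, exact statements of the modules
-/

open scoped BigOperators Topology
open Metric Set

namespace Pool.Agent.GPJ

open Pool.Agent.GPH

noncomputable section

/-- Several Fuchsian systems, indexed by `I`, with common singular points `S j` (some of which
may be apparent for some of the systems, `x k j = 0`); any two systems have different sets of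
singular points. -/
structure FuchsJ {I : Type} {g : I → ℕ} {p : ℕ}
    (N : ∀ k, Matrix (Fin (2 * g k)) (Fin (2 * g k)) ℂ) (S : Fin p → ℂ)
    (x : ∀ k, Fin p → Fin (2 * g k) → ℂ) : Prop where
  fuchs : ∀ k, Fuchs (N k) S (x k)
  sep : ∀ k l, k ≠ l → ∃ j, ¬(x k j = 0 ↔ x l j = 0)

/-- The simultaneous transvections. -/
def TVJ {I : Type} {g : I → ℕ} {p : ℕ} (N : ∀ k, Matrix (Fin (2 * g k)) (Fin (2 * g k)) ℂ)
    (v : ∀ k, Fin p → Fin (2 * g k) → ℂ) :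
    Set (∀ k, Matrix (Fin (2 * g k)) (Fin (2 * g k)) ℂ) :=
  {M | ∃ (j : Fin p) (c : ℂ), M = fun k => 1 + c • res (N k) (v k j)}

/-- OKUN: Okubo systems have no apparent singular points. -/
def Stmt_OkuN : Prop := ∀ (m : ℕ) (A E N : Matrix (Fin m) (Fin m) ℂ), Okubo A E N →
  ∃ (S : Fin m → ℂ) (x : Fin m → Fin m → ℂ), Fuchs N S x ∧ (∀ i, x i ≠ 0) ∧
    (∀ s, (s • (1 : Matrix (Fin m) (Fin m) ℂ) + A).det ≠ 0 ↔ ∀ i, s ≠ S i) ∧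
    ∀ s, (∀ i, s ≠ S i) → Bf N S x s = (s • (1 : Matrix (Fin m) (Fin m) ℂ) + A)⁻¹ * E

/-- AFF: affine changes of the variable. -/
def Stmt_Aff : Prop := ∀ (m p : ℕ) (N : Matrix (Fin m) (Fin m) ℂ) (S : Fin p → ℂ)
  (x : Fin p → Fin m → ℂ), Fuchs N S x → ∀ e r : ℂ, r ≠ 0 →
  Fuchs N (fun i => (S i - e) / r) x ∧
  (∀ z, (∀ i, z ≠ (S i - e) / r) ↔ ∀ i, e + r * z ≠ S i) ∧
  ∀ z, Bf N (fun i => (S i - e) / r) x z = r • Bf N S x (e + r * z)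

/-- COMMON: common singular points. -/
def Stmt_Common : Prop := ∀ (I : Type) [Fintype I] (g p : I → ℕ)
  (N : ∀ k, Matrix (Fin (2 * g k)) (Fin (2 * g k)) ℂ) (S : ∀ k, Fin (p k) → ℂ)
  (x : ∀ k, Fin (p k) → Fin (2 * g k) → ℂ), (∀ k, Fuchs (N k) (S k) (x k)) →
  (∀ k i, x k i ≠ 0) →
  (∀ k l, k ≠ l → ∃ z, ¬((∃ i, z = S k i) ↔ ∃ i, z = S l i)) →
  ∃ (q : ℕ) (T : Fin q → ℂ) (y : ∀ k, Fin q → Fin (2 * g k) → ℂ), Function.Injective T ∧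
    FuchsJ N T y ∧ (∀ k z, Bf (N k) T (y k) z = Bf (N k) (S k) (x k) z) ∧
    ∀ j, ∃ k i, T j = S k i

/-- LOCV: the local monodromy is trivial only at the apparent singular points. -/
def Stmt_LocV : Prop := ∀ (m p : ℕ) (N : Matrix (Fin m) (Fin m) ℂ) (S : Fin p → ℂ)
  (x : Fin p → Fin m → ℂ), Fuchs N S x → ∀ b : ℂ, GenPos b S → ∀ Φ, Fund N S x b Φ →
  ∀ (i : Fin p) (v : Fin m → ℂ), LocForm N S b Φ i v → (v = 0 ↔ x i = 0)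

/-- SHIFTJ: polynomial relations between several systems are invariant under the simultaneous
unipotent local monodromies. -/
def Stmt_ShiftJ : Prop := ∀ (I : Type) [Fintype I] [Nonempty I] (m : I → ℕ) (p : ℕ)
  (N : ∀ k, Matrix (Fin (m k)) (Fin (m k)) ℂ) (S : Fin p → ℂ)
  (x : ∀ k, Fin p → Fin (m k) → ℂ), (∀ k, Fuchs (N k) S (x k)) → ∀ b : ℂ, GenPos b S →
  ∀ Φ : ∀ k, ℂ → Matrix (Fin (m k)) (Fin (m k)) ℂ, (∀ k, Fund (N k) S (x k) b (Φ k)) →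
  ∀ (j : Fin p) (v : ∀ k, Fin (m k) → ℂ), (∀ k, LocForm (N k) S b (Φ k) j (v k)) →
  ∀ (ι : I → Type) [∀ k, Fintype (ι k)]
    (P : MvPolynomial (Option (Σ k, Fin (m k) × ι k)) ℂ) (h : ∀ k, Matrix (Fin (m k)) (ι k) ℂ),
    (∀ s ∈ Cut b S, MvPolynomial.eval (HGP.opt s
      (fun q : Σ k, Fin (m k) × ι k => (Φ q.1 s * h q.1) q.2.1 q.2.2)) P = 0) →
    ∀ c : ℂ, ∀ s ∈ Cut b S,
      MvPolynomial.eval (HGP.opt s (fun q : Σ k, Fin (m k) × ι k =>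
        (Φ q.1 s * (((1 : Matrix (Fin (m q.1)) (Fin (m q.1)) ℂ) +
          c • res (N q.1) (v q.1)) * h q.1) : Matrix (Fin (m q.1)) (ι q.1) ℂ) q.2.1 q.2.2)) P = 0

/-- The hypotheses of the group theoretic modules. -/
structure GrpH {I : Type} {g : I → ℕ} {p : ℕ}
    (N : ∀ k, Matrix (Fin (2 * g k)) (Fin (2 * g k)) ℂ)
    (v : ∀ k, Fin p → Fin (2 * g k) → ℂ) : Prop where
  pos : ∀ k, 0 < g k
  anti : ∀ k, (N k).transpose = -N k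
  det : ∀ k, (N k).det ≠ 0
  leg : ∀ k, ∃ (W : Matrix (Fin (2 * g k)) (HGP.Ix (g k)) ℂ) (lam : ℂ), lam ≠ 0 ∧
    W.transpose * N k * W = lam • Matrix.J (Fin (g k)) ℂ
  comm : ∀ k, ∀ Z : Matrix (Fin (2 * g k)) (Fin (2 * g k)) ℂ,
    (∀ j, Z * res (N k) (v k j) = res (N k) (v k j) * Z) → ∃ c : ℂ, Z = c • 1
  sep : ∀ k l, k ≠ l → ∃ j, ¬(v k j = 0 ↔ v l j = 0)

/-- GRPP: pairs. -/
def Stmt_GrpP : Prop := ∀ (I : Type) [Fintype I] (g : I → ℕ) (p : ℕ)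
  (N : ∀ k, Matrix (Fin (2 * g k)) (Fin (2 * g k)) ℂ) (v : ∀ k, Fin p → Fin (2 * g k) → ℂ),
  GrpH N v → ∀ k l, k ≠ l → ∀ h : Matrix (Fin (2 * g k)) (Fin (2 * g k)) ℂ,
    h.transpose * N k * h = N k →
    ∃ M ∈ Submonoid.closure (TVJ N v), M k = h ∧ M l = 1

/-- GRPJ: the simultaneous transvections generate the whole product (Goursat, Kolchin, Ribet). -/
def Stmt_GrpJ : Prop := ∀ (I : Type) [Fintype I] (g : I → ℕ) (p : ℕ)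
  (N : ∀ k, Matrix (Fin (2 * g k)) (Fin (2 * g k)) ℂ) (v : ∀ k, Fin p → Fin (2 * g k) → ℂ),
  GrpH N v → ∀ h : ∀ k, Matrix (Fin (2 * g k)) (Fin (2 * g k)) ℂ,
    (∀ k, (h k).transpose * N k * h k = N k) → h ∈ Submonoid.closure (TVJ N v)

/-- THMJ: Fuchsian systems. -/
def Stmt_ThmJ : Prop := ∀ (I : Type) [Fintype I] (g : I → ℕ) (p : ℕ)
  (N : ∀ k, Matrix (Fin (2 * g k)) (Fin (2 * g k)) ℂ) (S : Fin p → ℂ)
  (x : ∀ k, Fin p → Fin (2 * g k) → ℂ), (∀ k, 0 < g k) → FuchsJ N S x →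
  ∀ lam : ℂ, lam ≠ 0 → ∀ (b0 : ℂ) (ρ : ℝ), 0 < ρ → (∀ s ∈ ball b0 ρ, ∀ i, s ≠ S i) →
  ∀ W : ∀ k, ℂ → Matrix (Fin (2 * g k)) (HGP.Ix (g k)) ℂ,
  (∀ k, MSol (ball b0 ρ) (Bf (N k) S (x k)) (W k)) →
  (∀ k, ∀ s ∈ ball b0 ρ, (W k s).transpose * N k * W k s = lam • Matrix.J (Fin (g k)) ℂ) →
  ∀ P : MvPolynomial (Option (Σ k, Fin (2 * g k) × HGP.Ix (g k))) ℂ,
    (∀ s ∈ ball b0 ρ, MvPolynomial.eval (HGP.opt s
      (fun q : Σ k, Fin (2 * g k) × HGP.Ix (g k) => W q.1 s q.2.1 q.2.2)) P = 0) →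
  ∀ (s : ℂ) (M : ∀ k, Matrix (Fin (2 * g k)) (HGP.Ix (g k)) ℂ),
    (∀ k, (M k).transpose * N k * M k = lam • Matrix.J (Fin (g k)) ℂ) →
    MvPolynomial.eval (HGP.opt s
      (fun q : Σ k, Fin (2 * g k) × HGP.Ix (g k) => M q.1 q.2.1 q.2.2)) P = 0

/-- FIBJ: polynomial relations between `z` and the periods of the curves
`y² = f0 (c k) + (e k + r k z)`, with pairwise different sets of singular fibres, hold on the
whole product of the torsors. -/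
def Stmt_FibJ : Prop := ∀ (I : Type) [Fintype I] (g : I → ℕ) (c : ∀ k, Fin (2 * g k) → ℂ)
  (e r : I → ℂ), (∀ k, 0 < g k) → (∀ k, P2 (c k) ≠ 0) → (∀ k, r k ≠ 0) →
  (∀ k l, k ≠ l → ∃ z : ℂ, ¬((f0 (c k) + Polynomial.C (e k + r k * z)).Separable ↔
    (f0 (c l) + Polynomial.C (e l + r l * z)).Separable)) →
  ∀ (N : ∀ k, Matrix (Fin (2 * g k)) (Fin (2 * g k)) ℂ) (lam : ℂ), lam ≠ 0 →
  ∀ (b0 : ℂ) (ρ : ℝ), 0 < ρ →
  (∀ k, ∀ z ∈ ball b0 ρ, (f0 (c k) + Polynomial.C (e k + r k * z)).Separable) →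
  ∀ W W' : ∀ k, ℂ → Matrix (Fin (2 * g k)) (HGP.Ix (g k)) ℂ,
  (∀ k, ∀ z ∈ ball b0 ρ, ∀ i j, HasDerivAt (fun z => W k z i j) (W' k z i j) z) →
  (∀ k, ∀ z ∈ ball b0 ρ, ((e k + r k * z) • (1 : Matrix (Fin (2 * g k)) (Fin (2 * g k)) ℂ) +
    (Cop (c k)).transpose) * W' k z = r k • ((Dop (c k)).transpose * W k z)) →
  (∀ k, ∀ z ∈ ball b0 ρ,
    (W k z).transpose * N k * W k z = lam • Matrix.J (Fin (g k)) ℂ) →
  ∀ P : MvPolynomial (Option (Σ k, Fin (2 * g k) × HGP.Ix (g k))) ℂ,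
    (∀ z ∈ ball b0 ρ, MvPolynomial.eval (HGP.opt z
      (fun q : Σ k, Fin (2 * g k) × HGP.Ix (g k) => W q.1 z q.2.1 q.2.2)) P = 0) →
  ∀ (z : ℂ) (M : ∀ k, Matrix (Fin (2 * g k)) (HGP.Ix (g k)) ℂ),
    (∀ k, (M k).transpose * N k * M k = lam • Matrix.J (Fin (g k)) ℂ) →
    MvPolynomial.eval (HGP.opt z
      (fun q : Σ k, Fin (2 * g k) × HGP.Ix (g k) => M q.1 q.2.1 q.2.2)) P = 0

end

end Pool.Agent.GPJ
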