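import Pool.Agent.GPJ.Stmts

/-!
# GPJ: affine changes of the variable
-/

open scoped BigOperators Topology
open Metric Set

namespace Pool.Agent.GPJ

open Pool.Agent.GPH

theorem aff_proof : Stmt_Aff := by
  intro m p N S x hF e r hr
  refine ⟨⟨?_, hF.anti, hF.det, hF.tri, hF.dia, hF.comm⟩, ?_, ?_⟩
  · intro i j hij
    apply hF.inj
    have h1 : (S i - e) / r = (S j - e) / r := hij
    field_simp at h1
    linear_combination h1
  · intro z
    constructor
    · intro h i hi
      apply h i
      rw [← hi]
      field_simp
      ring
    · intro h i hi
      apply h i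
      rw [hi]
      field_simp
      ring
  · intro z
    unfold Bf
    rw [Finset.smul_sum]
    apply Finset.sum_congr rfl
    intro i _
    rw [smul_smul]
    congr 1
    have h1 : z - (S i - e) / r = (e + r * z - S i) / r := by
      field_simp
      ring
    rw [h1, inv_div]
    rfl

end Pool.Agent.GPJ
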