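import Pool.Agent.GPJ.Stmts

open scoped BigOperators Topology
open Metric Set

namespace Pool.Agent.GPJ

open Pool.Agent.GPH

namespace COMMON_

theorem res_zero {m : ℕ} (N : Matrix (Fin m) (Fin m) ℂ) : res N 0 = 0 := by
  unfold res
  simp

/-- sums over the common points -/
theorem sum_ext {m p q : ℕ} (N : Matrix (Fin m) (Fin m) ℂ) (S : Fin p → ℂ) (T : Fin q → ℂ)
    (x : Fin p → Fin m → ℂ) (e : Fin p → Fin q) (he : Function.Injective e)
    (hT : ∀ i, T (e i) = S i) (c : ℂ → ℂ) :
    ∑ j, c (T j) • res N (Function.extend e x 0 j) = ∑ i, c (S i) • res N (x i) := by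
  symm
  refine Fintype.sum_of_injective e he _ _ ?_ ?_
  · intro j hj
    have h : ¬ ∃ a, e a = j := fun ⟨a, ha⟩ => hj ⟨a, ha⟩
    rw [Function.extend_apply' _ _ _ h]
    simp [res_zero]
  · intro i
    rw [he.extend_apply, hT]

theorem fin_enum (F : Finset ℂ) : ∃ T : Fin F.card → ℂ, Function.Injective T ∧
    (∀ z ∈ F, ∃ j, T j = z) ∧ ∀ j, T j ∈ F := by
  refine ⟨fun j => (F.equivFin.symm j : ℂ), ?_, ?_, ?_⟩
  · intro i j h
    exact F.equivFin.symm.injective (Subtype.ext h)
  · intro z hz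
    exact ⟨F.equivFin ⟨z, hz⟩, by simp⟩
  · intro j
    exact (F.equivFin.symm j).2

end COMMON_

open COMMON_ in
theorem common_proof : Stmt_Common := by
  classical
  intro I _ g p N S x hF hx hsep
  obtain ⟨T, hTi, hTs, hTm⟩ := fin_enum
    (Finset.univ.biUnion (fun k => Finset.univ.image (S k)))
  have hmem : ∀ k i, S k i ∈ Finset.univ.biUnion (fun k => Finset.univ.image (S k)) := by
    intro k i
    rw [Finset.mem_biUnion]
    exact ⟨k, Finset.mem_univ _, Finset.mem_image_of_mem _ (Finset.mem_univ _)⟩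
  choose e he using fun (k : I) (i : Fin (p k)) => hTs _ (hmem k i)
  have hinj : ∀ k, Function.Injective (e k) := by
    intro k i j h
    apply (hF k).inj
    rw [← he k i, ← he k j, h]
  have hsum := fun (k : I) (c : ℂ → ℂ) => sum_ext (N k) (S k) T (x k) (e k) (hinj k) (he k) c
  have hsum1 : ∀ k, ∑ j, res (N k) (Function.extend (e k) (x k) 0 j)
      = ∑ i, res (N k) (x k i) := by
    intro k
    have := hsum k (fun _ => 1)
    simpa using this
  have hzero : ∀ k j, Function.extend (e k) (x k) 0 j = 0 ↔ ¬ ∃ i, T j = S k i := by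
    intro k j
    constructor
    · rintro h ⟨i, hi⟩
      have hj : j = e k i := hTi (by rw [hi, he])
      rw [hj, (hinj k).extend_apply] at h
      exact hx k i h
    · intro h
      rw [Function.extend_apply']
      · rfl
      · rintro ⟨i, hi⟩
        exact h ⟨i, by rw [← hi, he]⟩
  refine ⟨_, T, fun k => Function.extend (e k) (x k) 0, hTi, ⟨fun k => ?_, ?_⟩, ?_, ?_⟩
  · refine ⟨hTi, (hF k).anti, (hF k).det, ?_, ?_, ?_⟩
    · rw [hsum1 k]; exact (hF k).tri
    · rw [hsum1 k]; exact (hF k).dia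
    · intro Z hZ
      refine (hF k).comm Z (fun i => ?_)
      have := hZ (e k i)
      rwa [(hinj k).extend_apply] at this
  · intro k l hkl
    obtain ⟨z, hz⟩ := hsep k l hkl
    have hex : ∃ j, T j = z := by
      by_cases h1 : ∃ i, z = S k i
      · obtain ⟨i, rfl⟩ := h1
        exact ⟨e k i, he k i⟩
      · by_cases h2 : ∃ i, z = S l i
        · obtain ⟨i, rfl⟩ := h2
          exact ⟨e l i, he l i⟩
        · exact absurd (iff_of_false h1 h2) hz
    obtain ⟨j, rfl⟩ := hex
    refine ⟨j, fun h => hz ?_⟩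
    rw [hzero, hzero] at h
    exact not_iff_not.1 h
  · intro k z
    exact hsum k (fun w => (z - w)⁻¹)
  · intro j
    have := hTm j
    rw [Finset.mem_biUnion] at this
    obtain ⟨k, -, hk⟩ := this
    rw [Finset.mem_image] at hk
    obtain ⟨i, -, hi⟩ := hk
    exact ⟨k, i, hi.symm⟩

end Pool.Agent.GPJ
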