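import Pool.Agent.GPJ.Stmts

/-!
# GPJ: several hyperelliptic period systems
-/

open scoped BigOperators Topology
open Metric Set

namespace Pool.Agent.GPJ

open Pool.Agent.GPH

namespace FIBJX

lemma dia_ne (g : ℕ) (i : Fin (2 * g)) :
    (((i : ℕ) + 1 : ℂ) / (((2 * g : ℕ) : ℂ) + 1) - 1 / 2) ≠ 0 ∧
      ‖(((i : ℕ) + 1 : ℂ) / (((2 * g : ℕ) : ℂ) + 1) - 1 / 2)‖ < 1 / 2 := by
  have h1 : (((i : ℕ) + 1 : ℂ) / (((2 * g : ℕ) : ℂ) + 1) - 1 / 2) =
      (((((i : ℕ) : ℝ) + 1) / (((2 * g : ℕ) : ℝ) + 1) - 1 / 2 : ℝ) : ℂ) := by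
    push_cast
    ring
  rw [h1]
  have hi := i.2
  have hden : (0 : ℝ) < ((2 * g : ℕ) : ℝ) + 1 := by positivity
  constructor
  · intro h
    have h2 : ((((i : ℕ) : ℝ) + 1) / (((2 * g : ℕ) : ℝ) + 1) - 1 / 2 : ℝ) = 0 := by
      exact_mod_cast h
    have h3 : (2 : ℝ) * (((i : ℕ) : ℝ) + 1) = ((2 * g : ℕ) : ℝ) + 1 := by
      field_simp at h2
      linarith
    have h4 : 2 * ((i : ℕ) + 1) = 2 * g + 1 := by exact_mod_cast h3
    omega
  · rw [Complex.norm_real, Real.norm_eq_abs, abs_lt]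
    constructor
    · have : (0 : ℝ) < (((i : ℕ) : ℝ) + 1) / (((2 * g : ℕ) : ℝ) + 1) := by positivity
      linarith
    · have : (((i : ℕ) : ℝ) + 1) / (((2 * g : ℕ) : ℝ) + 1) < 1 := by
        rw [div_lt_one hden]
        have : ((i : ℕ) : ℝ) < ((2 * g : ℕ) : ℝ) := by exact_mod_cast hi
        linarith
      linarith

end FIBJX

theorem fibj_proof (hOk : Stmt_OkuN) (hAff : Stmt_Aff) (hCom : Stmt_Common) (hJ : Stmt_ThmJ)
    (hHor : Stmt_Hor) (hE : Stmt_CEig) (hD : Stmt_CDet) (hC : Stmt_CCom) (hT : Stmt_DTri) :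
    Stmt_FibJ := by
  intro I _ g c e r hg hP2 hr hsep N lam hlam b0 ρ hρ hS W W' hW hWW hleg P hP z M hM
  have hdet : ∀ k, ∀ s : ℂ, (s • (1 : Matrix (Fin (2 * g k)) (Fin (2 * g k)) ℂ) +
      (Cop (c k)).transpose).det =
      (s • (1 : Matrix (Fin (2 * g k)) (Fin (2 * g k)) ℂ) + Cop (c k)).det := by
    intro k s
    rw [← Matrix.det_transpose (s • (1 : Matrix (Fin (2 * g k)) (Fin (2 * g k)) ℂ) + Cop (c k))]
    rw [Matrix.transpose_add, Matrix.transpose_smul, Matrix.transpose_one]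
  have hds : ∀ k, ∀ s : ℂ, (s • (1 : Matrix (Fin (2 * g k)) (Fin (2 * g k)) ℂ) +
      (Cop (c k)).transpose).det ≠ 0 ↔ (f0 (c k) + Polynomial.C s).Separable := by
    intro k s
    rw [hdet]
    exact hD (2 * g k) (c k) s
  -- the Okubo systems
  have hO : ∀ k, Okubo (Cop (c k)).transpose (Dop (c k)).transpose (N k) := by
    intro k
    have hrk := hr k
    have hrn : 0 < ‖r k‖ := norm_pos_iff.mpr hrk
    have hmem : ∀ s ∈ ball (e k + r k * b0) (‖r k‖ * ρ), (s - e k) / r k ∈ ball b0 ρ := by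
      intro s hs
      rw [mem_ball, dist_eq_norm] at hs ⊢
      have h1 : (s - e k) / r k - b0 = (s - (e k + r k * b0)) / r k := by
        field_simp
        ring
      rw [h1, norm_div, div_lt_iff₀ hrn]
      linarith
    have hez : ∀ s : ℂ, e k + r k * ((s - e k) / r k) = s := by
      intro s
      field_simp
      ring
    obtain ⟨hNa, hNd, hNh⟩ := hHor (g k) (Cop (c k)).transpose (Dop (c k)).transpose (N k) lam hlam
      (e k + r k * b0) (‖r k‖ * ρ) (mul_pos hrn hρ)
      (by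
        intro s hs
        rw [hds]
        have h1 := hS k _ (hmem s hs)
        rwa [hez] at h1)
      (fun s => W k ((s - e k) / r k)) (fun s => (r k)⁻¹ • W' k ((s - e k) / r k))
      (by
        intro s hs i j
        have h1 := hW k _ (hmem s hs) i j
        have h2 : HasDerivAt (fun s : ℂ => (s - e k) / r k) (r k)⁻¹ s := by
          have h3 := ((hasDerivAt_id s).sub_const (e k)).div_const (r k)
          simpa using h3
        have h4 := h1.comp s h2
        simp only [Matrix.smul_apply, smul_eq_mul]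
        rw [mul_comm]
        exact h4)
      (by
        intro s hs
        have h1 := hWW k _ (hmem s hs)
        rw [hez] at h1
        rw [Matrix.mul_smul, h1, smul_smul, inv_mul_cancel₀ hrk, one_smul])
      (fun s hs => hleg k _ (hmem s hs))
    refine ⟨hE (2 * g k) (c k) (hP2 k), hNa, hNd, hNh, ?_, ?_, hC (2 * g k) (c k) (hP2 k)⟩
    · intro i j hij
      rw [Matrix.transpose_apply]
      exact (hT (2 * g k) (c k)).1 j i hij
    · intro i
      rw [Matrix.transpose_apply, (hT (2 * g k) (c k)).2 i]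
      exact FIBJX.dia_ne (g k) i
  choose S0 x hFu0 hx hiff hB using fun k => hOk (2 * g k) (Cop (c k)).transpose
    (Dop (c k)).transpose (N k) (hO k)
  have hA := fun k => hAff (2 * g k) (2 * g k) (N k) (S0 k) (x k) (hFu0 k) (e k) (r k) (hr k)
  have hsing : ∀ k z, (∀ i, z ≠ (S0 k i - e k) / r k) ↔
      (f0 (c k) + Polynomial.C (e k + r k * z)).Separable := by
    intro k z
    rw [(hA k).2.1 z, ← hiff k, hds]
  obtain ⟨q, T, y, hTi, hFJ, hBf, hTS⟩ := hCom I g (fun k => 2 * g k) N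
    (fun k i => (S0 k i - e k) / r k) x (fun k => (hA k).1) hx (by
      intro k l hkl
      obtain ⟨z, hz⟩ := hsep k l hkl
      refine ⟨z, ?_⟩
      rw [← hsing k z, ← hsing l z] at hz
      intro h
      apply hz
      constructor
      · intro h1 i hi
        obtain ⟨i', hi'⟩ := h.mpr ⟨i, hi⟩
        exact h1 i' hi'
      · intro h1 i hi
        obtain ⟨i', hi'⟩ := h.mp ⟨i, hi⟩
        exact h1 i' hi')
  refine hJ I g q N T y hg hFJ lam hlam b0 ρ hρ ?_ W ?_ hleg P hP z M hM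
  · intro s hs j hj
    obtain ⟨k, i, hki⟩ := hTS j
    exact (hsing k s).mpr (hS k s hs) i (hj.trans hki)
  · intro k s hs i j
    have h1 := hW k s hs i j
    have hd : ((e k + r k * s) • (1 : Matrix (Fin (2 * g k)) (Fin (2 * g k)) ℂ) +
        (Cop (c k)).transpose).det ≠ 0 := (hds k _).mpr (hS k s hs)
    have h2 : W' k s = Bf (N k) T (y k) s * W k s := by
      rw [hBf k s, (hA k).2.2 s, hB k _ ((hiff k _).mp hd), Matrix.smul_mul, Matrix.mul_assoc,
        ← Matrix.mul_smul, ← hWW k s hs, ← Matrix.mul_assoc,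
        Matrix.nonsing_inv_mul _ (Ne.isUnit hd), Matrix.one_mul]
    rw [h2] at h1
    exact h1

end Pool.Agent.GPJ
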