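import Pool.Agent.GPJ.Stmts
import Pool.Agent.GPH.Grp

/-!
# GPJ, module GRPJ: the simultaneous transvections generate the whole product
-/

open scoped BigOperators Topology
open Metric Set

namespace Pool.Agent.GPJ

open Pool.Agent.GPH

namespace GRPJ_

open Pool.Agent.GPH.Grp_

variable {I : Type} {g : I → ℕ} {p : ℕ} {N : ∀ k, Matrix (Fin (2 * g k)) (Fin (2 * g k)) ℂ}
  {v : ∀ k, Fin p → Fin (2 * g k) → ℂ}

lemma tvj_mem (j : Fin p) (c : ℂ) :
    (fun k => 1 + c • res (N k) (v k j)) ∈ Submonoid.closure (TVJ N v) :=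
  Submonoid.subset_closure ⟨j, c, rfl⟩

/-- Inverses. -/
lemma exists_inv (hN : ∀ k, (N k).transpose = -N k)
    (γ : ∀ k, Matrix (Fin (2 * g k)) (Fin (2 * g k)) ℂ) (hγ : γ ∈ Submonoid.closure (TVJ N v)) :
    ∃ γ' ∈ Submonoid.closure (TVJ N v), γ * γ' = 1 ∧ γ' * γ = 1 := by
  have key : ∃ γ' ∈ Submonoid.closure (TVJ N v), γ * γ' = 1 := by
    induction hγ using Submonoid.closure_induction with
    | mem x hx =>
      obtain ⟨j, c, rfl⟩ := hx
      refine ⟨_, tvj_mem j (-c), ?_⟩
      funext k
      exact tv_inv (hN k) (v k j) c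
    | one => exact ⟨1, Submonoid.one_mem _, one_mul 1⟩
    | mul x y _ _ hx hy =>
      obtain ⟨x', hx', hxx⟩ := hx
      obtain ⟨y', hy', hyy⟩ := hy
      refine ⟨y' * x', Submonoid.mul_mem _ hy' hx', ?_⟩
      calc x * y * (y' * x') = x * (y * y') * x' := by simp only [mul_assoc]
        _ = 1 := by rw [hyy, mul_one, hxx]
  obtain ⟨γ', h1, h2⟩ := key
  refine ⟨γ', h1, h2, ?_⟩
  funext k
  have h3 : γ k * γ' k = 1 := congrFun h2 k
  exact mul_eq_one_comm.1 h3

/-- Components of the elements of the group. -/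
lemma exists_comp (hGrp : GPH.Stmt_Grp) (H : GrpH N v) (k : I)
    (h : Matrix (Fin (2 * g k)) (Fin (2 * g k)) ℂ) (hh : h.transpose * N k * h = N k) :
    ∃ γ ∈ Submonoid.closure (TVJ N v), γ k = h := by
  obtain ⟨W, lam, hlam, hW⟩ := H.leg k
  have h1 := hGrp (g k) p (N k) W lam (v k) (H.pos k) hlam (H.anti k) (H.det k) hW (H.comm k) h hh
  induction h1 using Submonoid.closure_induction with
  | mem x hx =>
    obtain ⟨j, c, rfl⟩ := hx
    exact ⟨_, tvj_mem j c, rfl⟩
  | one => exact ⟨1, Submonoid.one_mem _, rfl⟩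
  | mul x y hx0 hy0 hx hy =>
    obtain ⟨x', hx', rfl⟩ := hx (closure_isom (H.anti k) (v k) x hx0)
    obtain ⟨y', hy', rfl⟩ := hy (closure_isom (H.anti k) (v k) y hy0)
    exact ⟨x' * y', Submonoid.mul_mem _ hx' hy', rfl⟩

lemma res_smul {m : ℕ} (N : Matrix (Fin m) (Fin m) ℂ) (c : ℂ) (w : Fin m → ℂ) :
    res N (c • w) = (c * c) • res N w := by
  unfold res
  rw [Matrix.mulVec_smul, Matrix.smul_vecMulVec, Matrix.vecMulVec_smul, smul_smul]

lemma res_zero {m : ℕ} (N : Matrix (Fin m) (Fin m) ℂ) : res N 0 = 0 := by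
  unfold res
  rw [Matrix.zero_vecMulVec]

/-- The induction on the set of components which are equal to `1`. -/
lemma main [Fintype I] (hP : Stmt_GrpP) (hGrp : GPH.Stmt_Grp) (hA : GPH.Stmt_GrpA)
    (hB : GPH.Stmt_GrpB) (H : GrpH N v) (k : I) (L : Finset I) : k ∉ L →
    ∀ h : Matrix (Fin (2 * g k)) (Fin (2 * g k)) ℂ, h.transpose * N k * h = N k →
    ∃ γ ∈ Submonoid.closure (TVJ N v), γ k = h ∧ ∀ l ∈ L, γ l = 1 := by
  classical
  induction L using Finset.induction_on with
  | empty =>
    intro _ h hh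
    obtain ⟨γ, h1, h2⟩ := exists_comp hGrp H k h hh
    exact ⟨γ, h1, h2, by simp⟩
  | insert l L hl ih =>
    intro hk h hh
    rw [Finset.mem_insert, not_or] at hk
    obtain ⟨hkl, hkL⟩ := hk
    obtain ⟨W, lam, hlam, hW⟩ := H.leg k
    have h1 := hB (g k) (N k) W lam hlam hW h hh
    clear hh
    induction h1 using Submonoid.closure_induction with
    | one => exact ⟨1, Submonoid.one_mem _, rfl, fun _ _ => rfl⟩
    | mul x y _ _ hx hy =>
      obtain ⟨x', hx', hxk, hxL⟩ := hx
      obtain ⟨y', hy', hyk, hyL⟩ := hy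
      refine ⟨x' * y', Submonoid.mul_mem _ hx' hy', ?_, ?_⟩
      · rw [Pi.mul_apply, hxk, hyk]
      · intro i hi
        rw [Pi.mul_apply, hxL i hi, hyL i hi, mul_one]
    | mem x hx =>
      obtain ⟨w, c, rfl⟩ := hx
      by_cases hw : w = 0
      · refine ⟨1, Submonoid.one_mem _, ?_, fun _ _ => rfl⟩
        rw [hw, res_zero, smul_zero, add_zero, Pi.one_apply]
      · have h2w : (2 : ℂ) • w ≠ 0 := smul_ne_zero two_ne_zero hw
        obtain ⟨a, ha, haw⟩ := hA (2 * g k) p (N k) (v k) (H.anti k) (H.det k) (H.comm k) w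
          ((2 : ℂ) • w) hw h2w
        have haiso := closure_isom (H.anti k) (v k) a ha
        have hTiso := tv_isom (H.anti k) w (c / 3)
        obtain ⟨α, hα, hαk, hαL⟩ := ih hkL a haiso
        obtain ⟨α', hα', hαα, -⟩ := exists_inv H.anti α hα
        obtain ⟨β, hβ, hβk, hβl⟩ := hP I g p N v H k l hkl _ hTiso
        obtain ⟨β', hβ', hββ, -⟩ := exists_inv H.anti β hβ
        refine ⟨α * β * α' * β', Submonoid.mul_mem _ (Submonoid.mul_mem _
          (Submonoid.mul_mem _ hα hβ) hα') hβ', ?_, ?_⟩
        · have hααk : α k * α' k = 1 := congrFun hαα k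
          have hββk : β k * β' k = 1 := congrFun hββ k
          rw [hαk] at hααk
          rw [hβk] at hββk
          have hβ'k : β' k = 1 + (-(c / 3)) • res (N k) w := by
            have h3 := tv_inv (H.anti k) w (c / 3)
            have h4 := mul_eq_one_comm.1 hββk
            calc β' k = β' k * ((1 + (c / 3) • res (N k) w) * (1 + (-(c / 3)) • res (N k) w)) := by
                  rw [h3, mul_one]
              _ = _ := by rw [← mul_assoc, h4, one_mul]
          rw [Pi.mul_apply, Pi.mul_apply, Pi.mul_apply, hαk, hβk, hβ'k]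
          have h5 : a * (1 + (c / 3) • res (N k) w) * α' k = 1 + (c / 3 * 4) • res (N k) w := by
            rw [mul_add, mul_one, add_mul, hααk, Matrix.mul_smul, ← res_conj haiso w, haw,
              res_smul, Matrix.smul_mul, Matrix.mul_assoc, hααk, Matrix.mul_one, smul_smul]
            norm_num
          rw [h5, mul_add, mul_one, add_mul, one_mul, Matrix.mul_smul, Matrix.smul_mul,
            res_sq (H.anti k), smul_zero, smul_zero, add_zero, add_assoc, ← add_smul]
          congr 2
          ring
        · intro i hi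
          rw [Finset.mem_insert] at hi
          rw [Pi.mul_apply, Pi.mul_apply, Pi.mul_apply]
          rcases hi with rfl | hi
          · have h3 : β i * β' i = 1 := congrFun hββ i
            have h4 : α i * α' i = 1 := congrFun hαα i
            rw [hβl, one_mul] at h3
            rw [hβl, h3, mul_one, mul_one, h4]
          · have h3 : β i * β' i = 1 := congrFun hββ i
            have h4 : α i * α' i = 1 := congrFun hαα i
            rw [hαL i hi, one_mul] at h4
            rw [hαL i hi, h4, mul_one, one_mul, h3]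

end GRPJ_

open GRPJ_ in
theorem grpj_proof (hP : Stmt_GrpP) (hGrp : GPH.Stmt_Grp) (hA : GPH.Stmt_GrpA)
    (hB : GPH.Stmt_GrpB) : Stmt_GrpJ := by
  classical
  intro I _ g p N v H h hh
  have key : ∀ k, (Function.update (1 : ∀ k, Matrix (Fin (2 * g k)) (Fin (2 * g k)) ℂ) k (h k)) ∈
      Submonoid.closure (TVJ N v) := by
    intro k
    obtain ⟨γ, h1, h2, h3⟩ := main hP hGrp hA hB H k (Finset.univ.erase k)
      (Finset.notMem_erase k _) (h k) (hh k)
    have h4 : γ = Function.update (1 : ∀ k, Matrix (Fin (2 * g k)) (Fin (2 * g k)) ℂ) k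
        (h k) := by
      funext l
      by_cases hl : l = k
      · subst hl
        rw [Function.update_self, h2]
      · rw [Function.update_of_ne hl, h3 l (Finset.mem_erase.2 ⟨hl, Finset.mem_univ _⟩),
          Pi.one_apply]
    rw [← h4]
    exact h1
  let t : Finset I → ∀ k, Matrix (Fin (2 * g k)) (Fin (2 * g k)) ℂ :=
    fun s k => if k ∈ s then h k else 1
  have hs : ∀ s : Finset I, t s ∈ Submonoid.closure (TVJ N v) := by
    intro s
    induction s using Finset.induction_on with
    | empty =>
      have h2 : t ∅ = 1 := by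
        funext l
        simp only [t, Finset.notMem_empty, if_false, Pi.one_apply]
      rw [h2]
      exact Submonoid.one_mem _
    | insert k s hk ih =>
      have h1 := Submonoid.mul_mem _ (key k) ih
      have h2 : t (insert k s) =
          Function.update (1 : ∀ k, Matrix (Fin (2 * g k)) (Fin (2 * g k)) ℂ) k (h k) * t s := by
        funext l
        rw [Pi.mul_apply]
        simp only [t]
        by_cases hl : l = k
        · subst hl
          rw [Function.update_self, if_pos (Finset.mem_insert_self _ _), if_neg hk, mul_one]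
        · rw [Function.update_of_ne hl, Pi.one_apply, one_mul]
          simp only [Finset.mem_insert, hl, false_or]
      rw [h2]
      exact h1
  have h1 := hs Finset.univ
  simp only [t, Finset.mem_univ, if_true] at h1
  exact h1

end Pool.Agent.GPJ
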