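import Pool.Agent.GPJ.Stmts
import Pool.Agent.GPH.Grp

/-!
# GRPP: isometries of one block, trivial on another block
-/

open scoped BigOperators Topology
open Metric Set

namespace Pool.Agent.GPJ

open Pool.Agent.GPH

namespace GRPP_

open Pool.Agent.GPH.Grp_

variable {I : Type} {g : I → ℕ} {p : ℕ} {N : ∀ k, Matrix (Fin (2 * g k)) (Fin (2 * g k)) ℂ}
  {v : ∀ k, Fin p → Fin (2 * g k) → ℂ}

lemma mem_isom (hN : ∀ k, (N k).transpose = -N k)
    (M : ∀ k, Matrix (Fin (2 * g k)) (Fin (2 * g k)) ℂ)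
    (hM : M ∈ Submonoid.closure (TVJ N v)) (k : I) :
    (M k).transpose * N k * M k = N k := by
  induction hM using Submonoid.closure_induction with
  | mem x hx =>
    obtain ⟨j, c, rfl⟩ := hx
    exact tv_isom (hN k) (v k j) c
  | one =>
    rw [Pi.one_apply]
    simp
  | mul x y _ _ hx hy =>
    rw [Pi.mul_apply]
    calc (x k * y k).transpose * N k * (x k * y k) =
        (y k).transpose * ((x k).transpose * N k * x k) * y k := by
          rw [Matrix.transpose_mul]
          simp only [Matrix.mul_assoc]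
      _ = N k := by rw [hx, hy]

lemma mem_inv (hN : ∀ k, (N k).transpose = -N k)
    (M : ∀ k, Matrix (Fin (2 * g k)) (Fin (2 * g k)) ℂ)
    (hM : M ∈ Submonoid.closure (TVJ N v)) :
    ∃ M' ∈ Submonoid.closure (TVJ N v), ∀ k, M k * M' k = 1 := by
  induction hM using Submonoid.closure_induction with
  | mem x hx =>
    obtain ⟨j, c, rfl⟩ := hx
    exact ⟨_, Submonoid.subset_closure ⟨j, -c, rfl⟩, fun k => tv_inv (hN k) (v k j) c⟩
  | one => exact ⟨1, Submonoid.one_mem _, fun k => by rw [Pi.one_apply, one_mul]⟩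
  | mul x y _ _ hx hy =>
    obtain ⟨x', hx', hxx⟩ := hx
    obtain ⟨y', hy', hyy⟩ := hy
    refine ⟨y' * x', Submonoid.mul_mem _ hy' hx', fun k => ?_⟩
    rw [Pi.mul_apply, Pi.mul_apply]
    calc x k * y k * (y' k * x' k) = x k * (y k * y' k) * x' k := by
          simp only [Matrix.mul_assoc]
      _ = 1 := by rw [hyy k, Matrix.mul_one, hxx k]

lemma lift_closure (k : I) (h : Matrix (Fin (2 * g k)) (Fin (2 * g k)) ℂ)
    (hh : h ∈ Submonoid.closure (TV (N k) (v k))) :
    ∃ M ∈ Submonoid.closure (TVJ N v), M k = h := by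
  induction hh using Submonoid.closure_induction with
  | mem x hx =>
    obtain ⟨j, c, rfl⟩ := hx
    exact ⟨fun k => 1 + c • res (N k) (v k j), Submonoid.subset_closure ⟨j, c, rfl⟩, rfl⟩
  | one => exact ⟨1, Submonoid.one_mem _, rfl⟩
  | mul x y _ _ hx hy =>
    obtain ⟨X, hX, hXk⟩ := hx
    obtain ⟨Y, hY, hYk⟩ := hy
    exact ⟨X * Y, Submonoid.mul_mem _ hX hY, by rw [Pi.mul_apply, hXk, hYk]⟩

lemma res_zero {m : ℕ} (A : Matrix (Fin m) (Fin m) ℂ) : res A 0 = 0 := by
  unfold res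
  ext i j
  simp [Matrix.vecMulVec_apply]

lemma case1 (hA : Stmt_GrpA) (hB : Stmt_GrpB) (H : GrpH N v) (k l : I) (j : Fin p)
    (hk : v k j ≠ 0) (hl : v l j = 0) (h : Matrix (Fin (2 * g k)) (Fin (2 * g k)) ℂ)
    (hh : h.transpose * N k * h = N k) :
    ∃ M ∈ Submonoid.closure (TVJ N v), M k = h ∧ M l = 1 := by
  obtain ⟨W, lam, hlam, hW⟩ := H.leg k
  have h1 := hB (g k) (N k) W lam hlam hW h hh
  clear hh
  induction h1 using Submonoid.closure_induction with
  | mem x hx =>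
    obtain ⟨w, c, rfl⟩ := hx
    by_cases hw : w = 0
    · refine ⟨1, Submonoid.one_mem _, ?_, rfl⟩
      rw [hw, res_zero, smul_zero, add_zero, Pi.one_apply]
    · obtain ⟨t, ht, htw⟩ := hA (2 * g k) p (N k) (v k) (H.anti k) (H.det k) (H.comm k)
        (v k j) w hk hw
      obtain ⟨T, hT, hTk⟩ := lift_closure (N := N) (v := v) k t ht
      obtain ⟨T', hT', hTT⟩ := mem_inv H.anti T hT
      have hiso := mem_isom H.anti T hT k
      refine ⟨T * (fun k => 1 + c • res (N k) (v k j)) * T',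
        Submonoid.mul_mem _ (Submonoid.mul_mem _ hT (Submonoid.subset_closure ⟨j, c, rfl⟩)) hT',
        ?_, ?_⟩
      · rw [Pi.mul_apply, Pi.mul_apply]
        have hTw : (T k).mulVec (v k j) = w := by rw [hTk]; exact htw
        rw [← hTw, Matrix.mul_add, Matrix.mul_one, Matrix.add_mul, hTT k, Matrix.mul_smul,
          ← res_conj hiso (v k j), Matrix.smul_mul, Matrix.mul_assoc, hTT k, Matrix.mul_one]
      · rw [Pi.mul_apply, Pi.mul_apply]
        change T l * (1 + c • res (N l) (v l j)) * T' l = 1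
        rw [hl, res_zero, smul_zero, add_zero, Matrix.mul_one, hTT l]
  | one => exact ⟨1, Submonoid.one_mem _, rfl, rfl⟩
  | mul x y _ _ hx hy =>
    obtain ⟨X, hX, hXk, hXl⟩ := hx
    obtain ⟨Y, hY, hYk, hYl⟩ := hy
    exact ⟨X * Y, Submonoid.mul_mem _ hX hY, by rw [Pi.mul_apply, hXk, hYk],
      by rw [Pi.mul_apply, hXl, hYl, Matrix.one_mul]⟩

end GRPP_

open GRPP_ in
theorem grpp_proof (hGrp : GPH.Stmt_Grp) (hA : GPH.Stmt_GrpA) (hB : GPH.Stmt_GrpB) :
    Stmt_GrpP := by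
  intro I _ g p N v H k l hkl h hh
  obtain ⟨j, hj⟩ := H.sep k l hkl
  by_cases hk : v k j = 0
  · have hl : v l j ≠ 0 := fun hl => hj ⟨fun _ => hl, fun _ => hk⟩
    obtain ⟨W, lam, hlam, hW⟩ := H.leg k
    have h1 := hGrp (g k) p (N k) W lam (v k) (H.pos k) hlam (H.anti k) (H.det k) hW (H.comm k)
      h hh
    obtain ⟨M, hM, hMk⟩ := lift_closure (N := N) (v := v) k h h1
    obtain ⟨M', hM', hMM⟩ := mem_inv H.anti M hM
    have hiso := mem_isom H.anti M' hM' l
    obtain ⟨P, hP, hPl, hPk⟩ := case1 hA hB H l k j hl hk (M' l) hiso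
    refine ⟨M * P, Submonoid.mul_mem _ hM hP, ?_, ?_⟩
    · rw [Pi.mul_apply, hMk, hPk, Matrix.mul_one]
    · rw [Pi.mul_apply, hPl, hMM l]
  · have hl : v l j = 0 := by
      by_contra hl
      exact hj ⟨fun h => absurd h hk, fun h => absurd h hl⟩
    exact case1 hA hB H k l j hk hl h hh

end Pool.Agent.GPJ
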