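import Pool.Agent.GPJ.Stmts

/-!
# GPJ LOCV: the local monodromy is trivial only at the apparent singular points
-/

open scoped BigOperators Topology
open Metric Set Filter

namespace Pool.Agent.GPJ

open Pool.Agent.GPH

noncomputable section

namespace LOCV_

theorem res_sq {m : ℕ} (N : Matrix (Fin m) (Fin m) ℂ) (hN : N.transpose = -N) (v : Fin m → ℂ) :
    res N v * res N v = 0 := by
  have h0 : dotProduct (N.mulVec v) v = 0 := by
    have h1 : dotProduct (N.mulVec v) v = - dotProduct (N.mulVec v) v := by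
      calc dotProduct (N.mulVec v) v = dotProduct v (N.mulVec v) := dotProduct_comm _ _
        _ = dotProduct (Matrix.vecMul v N) v := by rw [Matrix.dotProduct_mulVec]
        _ = dotProduct (N.transpose.mulVec v) v := by rw [Matrix.mulVec_transpose]
        _ = - dotProduct (N.mulVec v) v := by
            rw [hN, Matrix.neg_mulVec, neg_dotProduct]
    have h2 : (2 : ℂ) * dotProduct (N.mulVec v) v = 0 := by linear_combination h1
    exact (mul_eq_zero.1 h2).resolve_left two_ne_zero
  unfold res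
  rw [Matrix.vecMulVec_mul_vecMulVec, h0]
  ext i j
  simp [Matrix.vecMulVec_apply]

theorem res_zero_iff {m : ℕ} (N : Matrix (Fin m) (Fin m) ℂ) (hN : N.det ≠ 0) (v : Fin m → ℂ) :
    res N v = 0 ↔ v = 0 := by
  constructor
  · intro h
    by_contra hv
    have h1 : N.mulVec v ≠ 0 := by
      intro h2
      apply hv
      have h3 : N⁻¹.mulVec (N.mulVec v) = 0 := by rw [h2, Matrix.mulVec_zero]
      rw [Matrix.mulVec_mulVec, Matrix.nonsing_inv_mul N (Ne.isUnit hN), Matrix.one_mulVec] at h3
      exact h3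
    obtain ⟨i, hi⟩ := Function.ne_iff.1 hv
    obtain ⟨j, hj⟩ := Function.ne_iff.1 h1
    have h2 : res N v i j = 0 := by rw [h]; rfl
    rw [res, Matrix.vecMulVec_apply] at h2
    rcases mul_eq_zero.1 h2 with h3 | h3
    · exact hi h3
    · exact hj h3
  · intro h
    rw [h, res]
    ext i j
    simp [Matrix.vecMulVec_apply]

/-- The regular part. -/
def B1 {m p : ℕ} (N : Matrix (Fin m) (Fin m) ℂ) (S : Fin p → ℂ) (x : Fin p → Fin m → ℂ)
    (b : ℂ) (i : Fin p) (t : ℂ) : Matrix (Fin m) (Fin m) ℂ :=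
  ∑ k ∈ Finset.univ.erase i, ((S i - b) * (S i + t * (S i - b) - S k)⁻¹) • res N (x k)

theorem Bf_eq {m p : ℕ} (N : Matrix (Fin m) (Fin m) ℂ) (S : Fin p → ℂ) (x : Fin p → Fin m → ℂ)
    (b : ℂ) (i : Fin p) (t : ℂ) (ht : t ≠ 0) (hb : S i ≠ b) :
    (t * (S i - b)) • Bf N S x (S i + t * (S i - b)) = res N (x i) + t • B1 N S x b i t := by
  unfold Bf B1
  rw [← Finset.add_sum_erase Finset.univ _ (Finset.mem_univ i), smul_add, Finset.smul_sum,
    Finset.smul_sum]
  congr 1
  · rw [smul_smul]
    have h1 : t * (S i - b) ≠ 0 := mul_ne_zero ht (sub_ne_zero.2 hb)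
    have h2 : S i + t * (S i - b) - S i = t * (S i - b) := by ring
    rw [h2, mul_inv_cancel₀ h1, one_smul]
  · refine Finset.sum_congr rfl fun k _ => ?_
    rw [smul_smul, smul_smul]
    congr 1
    ring

theorem hasDerivAt_plog {t : ℂ} (ht : ∀ u : ℝ, 0 ≤ u → t ≠ u) : HasDerivAt plog t⁻¹ t := by
  have h1 : -t ∈ Complex.slitPlane := by
    rw [Complex.mem_slitPlane_iff]
    by_contra hcon
    push Not at hcon
    obtain ⟨h2, h3⟩ := hcon
    have h4 : 0 ≤ t.re := by
      have : (-t).re ≤ 0 := h2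
      simpa using this
    have h5 : t.im = 0 := by
      have : (-t).im = 0 := h3
      simpa using this
    exact ht t.re h4 (by apply Complex.ext <;> simp [h5])
  have h2 : HasDerivAt (fun z : ℂ => Complex.log (-z)) ((-t)⁻¹ * (-1)) t :=
    (Complex.hasDerivAt_log h1).comp t (hasDerivAt_neg t)
  have h3 : (-t)⁻¹ * (-1) = t⁻¹ := by
    rw [inv_neg]; ring
  rw [h3] at h2
  exact h2.add_const _

theorem key {m p : ℕ} (N : Matrix (Fin m) (Fin m) ℂ) (S : Fin p → ℂ)
    (x : Fin p → Fin m → ℂ) (hF : Fuchs N S x) (b : ℂ) (hg : GenPos b S)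
    (Φ : ℂ → Matrix (Fin m) (Fin m) ℂ) (hΦ : Fund N S x b Φ) (i : Fin p) (v : Fin m → ℂ)
    (r : ℝ) (H : ℂ → Matrix (Fin m) (Fin m) ℂ) (hr : 0 < r) (hH : HolM (ball 0 r) H)
    (hloc : ∀ t ∈ ball (0 : ℂ) r, (∀ u : ℝ, 0 ≤ u → t ≠ u) → S i + t * (S i - b) ∈ Cut b S ∧
      Φ (S i + t * (S i - b)) = H t * (1 + plog t • res N v))
    (t : ℂ) (ht : t ∈ ball (0 : ℂ) r) (hs : ∀ u : ℝ, 0 ≤ u → t ≠ u) (k l : Fin m) :
    t * deriv (fun z => H z k l) t + (H t * res N v) k l =
      ((res N (x i) + t • B1 N S x b i t) * H t) k l := by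
  have hR2 := res_sq N hF.anti v
  set R := res N v with hRdef
  have ht0 : t ≠ 0 := by simpa using hs 0 le_rfl
  set s := S i + t * (S i - b) with hsdef
  obtain ⟨hsC, hsΦ⟩ := hloc t ht hs
  -- derivative of the matrix H
  set H' : Matrix (Fin m) (Fin m) ℂ := Matrix.of fun a c => deriv (fun z => H z a c) t with hH'
  have hHd : ∀ a c, HasDerivAt (fun z => H z a c) (H' a c) t := by
    intro a c
    exact ((hH a c).differentiableAt (isOpen_ball.mem_nhds ht)).hasDerivAt
  -- left derivative
  have hL : ∀ a c, HasDerivAt (fun z => Φ (S i + z * (S i - b)) a c)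
      ((Bf N S x s * Φ s) a c * (S i - b)) t := by
    intro a c
    have h1 := hΦ.sol s hsC a c
    have h2 : HasDerivAt (fun z : ℂ => S i + z * (S i - b)) (S i - b) t := by
      simpa using ((hasDerivAt_id t).mul_const (S i - b)).const_add (S i)
    exact HasDerivAt.comp t h1 h2
  -- right derivative
  have hR : ∀ a c, HasDerivAt (fun z => (H z * (1 + plog z • R)) a c)
      ((H' * (1 + plog t • R) + H t * (t⁻¹ • R)) a c) t := by
    intro a c
    have h1 : ∀ z, (H z * (1 + plog z • R)) a c =
        ∑ d, H z a d * ((1 : Matrix (Fin m) (Fin m) ℂ) d c + plog z * R d c) := by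
      intro z
      rw [Matrix.mul_apply]
      rfl
    have h2 : (H' * (1 + plog t • R) + H t * (t⁻¹ • R)) a c =
        ∑ d, (H' a d * ((1 : Matrix (Fin m) (Fin m) ℂ) d c + plog t * R d c) +
          H t a d * (t⁻¹ * R d c)) := by
      rw [Matrix.add_apply, Matrix.mul_apply, Matrix.mul_apply, ← Finset.sum_add_distrib]
      rfl
    have h3 : HasDerivAt (fun z => ∑ d, H z a d * ((1 : Matrix (Fin m) (Fin m) ℂ) d c +
        plog z * R d c)) (∑ d, (H' a d * ((1 : Matrix (Fin m) (Fin m) ℂ) d c + plog t * R d c) +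
          H t a d * (t⁻¹ * R d c))) t := by
      refine HasDerivAt.fun_sum fun d _ => ?_
      exact (hHd a d).mul (((hasDerivAt_plog hs).mul_const (R d c)).const_add _)
    rw [h2]
    exact h3.congr_of_eventuallyEq (Filter.Eventually.of_forall h1)
  -- they coincide near t
  have hev : ∀ᶠ z in 𝓝 t, Φ (S i + z * (S i - b)) = H z * (1 + plog z • R) := by
    have h1 : ∀ᶠ z in 𝓝 t, z ∈ ball (0 : ℂ) r := isOpen_ball.mem_nhds ht
    have h2 : ∀ᶠ z in 𝓝 t, -z ∈ Complex.slitPlane := by
      have h3 : -t ∈ Complex.slitPlane := by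
        rw [Complex.mem_slitPlane_iff]
        by_contra hcon
        push Not at hcon
        obtain ⟨h2, h3⟩ := hcon
        have h4 : 0 ≤ t.re := by
          have : (-t).re ≤ 0 := h2
          simpa using this
        have h5 : t.im = 0 := by
          have : (-t).im = 0 := h3
          simpa using this
        exact hs t.re h4 (by apply Complex.ext <;> simp [h5])
      exact (continuous_neg.tendsto t).eventually (Complex.isOpen_slitPlane.mem_nhds h3)
    filter_upwards [h1, h2] with z hz1 hz2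
    refine (hloc z hz1 ?_).2
    intro u hu hzu
    rw [Complex.mem_slitPlane_iff] at hz2
    rw [hzu] at hz2
    rcases hz2 with h | h
    · simp at h
      linarith
    · simp at h
  have heq : (S i - b) • (Bf N S x s * Φ s) = H' * (1 + plog t • R) + H t * (t⁻¹ • R) := by
    ext a c
    have h1 := (hL a c).congr_of_eventuallyEq (f₁ := fun z => (H z * (1 + plog z • R)) a c)
      (hev.mono fun z hz => by
        show (H z * (1 + plog z • R)) a c = Φ (S i + z * (S i - b)) a c
        rw [hz])
    have h2 := h1.unique (hR a c)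
    rw [Matrix.smul_apply, smul_eq_mul, mul_comm]
    exact h2
  -- multiply by t and by (1 - plog R)
  have hinv : (1 + plog t • R) * (1 - plog t • R) = 1 := by
    rw [mul_sub, mul_one, add_mul, one_mul, Matrix.smul_mul, Matrix.mul_smul, hR2]
    simp
  have hRinv : R * (1 - plog t • R) = R := by
    rw [mul_sub, mul_one, Matrix.mul_smul, hR2]
    simp
  have hfin : t • H' + H t * R = (res N (x i) + t • B1 N S x b i t) * H t := by
    have h1 : t • ((S i - b) • (Bf N S x s * Φ s)) * (1 - plog t • R) =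
        t • (H' * (1 + plog t • R) + H t * (t⁻¹ • R)) * (1 - plog t • R) := by rw [heq]
    have h2 : t • ((S i - b) • (Bf N S x s * Φ s)) * (1 - plog t • R) =
        (res N (x i) + t • B1 N S x b i t) * H t := by
      rw [hsΦ, smul_smul, ← Matrix.smul_mul, hsdef, Bf_eq N S x b i t ht0 (hg.1 i),
        Matrix.mul_assoc, Matrix.mul_assoc, hinv, Matrix.mul_one]
    have h3 : t • (H' * (1 + plog t • R) + H t * (t⁻¹ • R)) * (1 - plog t • R) =
        t • H' + H t * R := by
      rw [smul_add, Matrix.add_mul]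
      congr 1
      · rw [Matrix.smul_mul, Matrix.mul_assoc, hinv, Matrix.mul_one]
      · rw [Matrix.mul_smul, smul_smul, mul_inv_cancel₀ ht0, one_smul, Matrix.mul_assoc, hRinv]
    rw [← h2, h1, h3]
  have := congrFun (congrFun hfin k) l
  rw [Matrix.add_apply, Matrix.smul_apply, smul_eq_mul] at this
  exact this

end LOCV_

open LOCV_

theorem locv_proof : Stmt_LocV := by
  intro m p N S x hF b hg Φ hΦ i v hloc
  obtain ⟨r, H, hr, hH, hdet, hloc⟩ := hloc
  have hb : S i ≠ b := hg.1 i
  have h0 : (0 : ℂ) ∈ ball (0 : ℂ) r := mem_ball_self hr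
  have hHc : ∀ a c, ContinuousAt (fun z => H z a c) 0 := fun a c =>
    ((hH a c).differentiableAt (isOpen_ball.mem_nhds h0)).continuousAt
  have hHc' : ∀ a c, ContinuousAt (deriv fun z => H z a c) 0 := fun a c =>
    (((hH a c).deriv isOpen_ball).differentiableAt (isOpen_ball.mem_nhds h0)).continuousAt
  have hBc : ∀ a c, ContinuousAt (fun t => B1 N S x b i t a c) 0 := by
    intro a c
    have h1 : (fun t => B1 N S x b i t a c) = fun t => ∑ k ∈ Finset.univ.erase i,
        ((S i - b) * (S i + t * (S i - b) - S k)⁻¹) * res N (x k) a c := by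
      funext t
      unfold B1
      rw [Matrix.sum_apply]
      rfl
    rw [h1]
    refine tendsto_finsetSum _ fun k hk => ?_
    have hk' : k ≠ i := Finset.ne_of_mem_erase hk
    have h2 : S i - S k ≠ 0 := sub_ne_zero.2 fun h => hk' (hF.inj h).symm
    have h3 : ContinuousAt (fun t : ℂ => (S i + t * (S i - b) - S k)⁻¹) 0 := by
      refine ContinuousAt.inv₀ (by fun_prop) ?_
      simpa using h2
    exact ((continuousAt_const.mul h3).mul continuousAt_const)
  -- the limit along negative real numbers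
  have hlim : ∀ k l, (H 0 * res N v) k l = (res N (x i) * H 0) k l := by
    intro k l
    let F : Filter ℂ := (𝓝[>] (0 : ℝ)).map (fun u : ℝ => -(u : ℂ))
    have hF0 : F ≤ 𝓝 0 := by
      have h1 : Tendsto (fun u : ℝ => -(u : ℂ)) (𝓝 0) (𝓝 0) := by
        have : Continuous (fun u : ℝ => -(u : ℂ)) := by fun_prop
        simpa using this.tendsto 0
      exact h1.mono_left nhdsWithin_le_nhds
    have : F.NeBot := Filter.map_neBot
    have hslit : ∀ᶠ t in F, t ∈ ball (0 : ℂ) r ∧ ∀ u : ℝ, 0 ≤ u → t ≠ u := by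
      refine Filter.Eventually.and (hF0 (isOpen_ball.mem_nhds h0)) ?_
      show ∀ᶠ u : ℝ in 𝓝[>] (0 : ℝ), ∀ w : ℝ, 0 ≤ w → -(u : ℂ) ≠ w
      filter_upwards [self_mem_nhdsWithin] with u hu w hw h
      have h1 : (((-u : ℝ) : ℂ)) = ((w : ℝ) : ℂ) := by
        rw [← h]; push_cast; ring
      have h2 : -u = w := Complex.ofReal_injective h1
      have h3 : (0 : ℝ) < u := hu
      linarith
    have hLt : Tendsto (fun t => t * deriv (fun z => H z k l) t + (H t * res N v) k l) F
        (𝓝 (0 * deriv (fun z => H z k l) 0 + (H 0 * res N v) k l)) := by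
      refine Tendsto.mono_left ?_ hF0
      refine Tendsto.add (Tendsto.mul tendsto_id (hHc' k l)) ?_
      simp only [Matrix.mul_apply]
      refine tendsto_finsetSum _ fun d _ => ?_
      exact (hHc k d).mul tendsto_const_nhds
    have hRt : Tendsto (fun t => ((res N (x i) + t • B1 N S x b i t) * H t) k l) F
        (𝓝 (((res N (x i) + (0 : ℂ) • B1 N S x b i 0) * H 0) k l)) := by
      refine Tendsto.mono_left ?_ hF0
      simp only [Matrix.mul_apply, Matrix.add_apply, Matrix.smul_apply, smul_eq_mul]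
      refine tendsto_finsetSum _ fun d _ => ?_
      exact Tendsto.mul (Tendsto.add tendsto_const_nhds (Tendsto.mul tendsto_id (hBc k d)))
        (hHc d l)
    have hEq : (fun t => t * deriv (fun z => H z k l) t + (H t * res N v) k l) =ᶠ[F]
        fun t => ((res N (x i) + t • B1 N S x b i t) * H t) k l :=
      hslit.mono fun t ht => key N S x hF b hg Φ hΦ i v r H hr hH hloc t ht.1 ht.2 k l
    have h1 := tendsto_nhds_unique_of_eventuallyEq hLt hRt hEq
    simpa using h1
  have hmain : H 0 * res N v = res N (x i) * H 0 := by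
    ext k l
    exact hlim k l
  have hu : IsUnit (H 0).det := Ne.isUnit (hdet 0 h0)
  rw [← res_zero_iff N hF.det v, ← res_zero_iff N hF.det (x i)]
  constructor
  · intro h
    rw [h, Matrix.mul_zero] at hmain
    have h1 : res N (x i) * H 0 * (H 0)⁻¹ = 0 := by rw [← hmain, Matrix.zero_mul]
    rwa [Matrix.mul_assoc, Matrix.mul_nonsing_inv _ hu, Matrix.mul_one] at h1
  · intro h
    rw [h, Matrix.zero_mul] at hmain
    have h1 : (H 0)⁻¹ * (H 0 * res N v) = 0 := by rw [hmain, Matrix.mul_zero]
    rwa [← Matrix.mul_assoc, Matrix.nonsing_inv_mul _ hu, Matrix.one_mul] at h1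

end

end Pool.Agent.GPJ
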