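import Pool.Agent.GPJ.Stmts

/-!
# OKUN: Okubo systems have no apparent singular points
-/

open scoped BigOperators Topology
open Metric Set

namespace Pool.Agent.GPJ

open Pool.Agent.GPH

namespace OKUN_

lemma sum_vec {m : ℕ} (P M : Matrix (Fin m) (Fin m) ℂ) (c : Fin m → ℂ) :
    ∑ i, c i • Matrix.vecMulVec (fun k => P k i) (fun k => M i k) =
      P * Matrix.diagonal c * M := by
  ext k l
  rw [Matrix.sum_apply, Matrix.mul_apply]
  refine Finset.sum_congr rfl ?_
  intro i _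
  rw [Matrix.smul_apply, Matrix.vecMulVec_apply, Matrix.mul_diagonal, smul_eq_mul]
  ring

lemma det_Bf {m : ℕ} (N : Matrix (Fin m) (Fin m) ℂ) (S : Fin m → ℂ) (x : Fin m → Fin m → ℂ) (s : ℂ)
    (i₀ : Fin m) (h : x i₀ = 0) : (Bf N S x s).det = 0 := by
  have h1 : Bf N S x s = Matrix.of (fun k i => x i k) * Matrix.diagonal (fun i => (s - S i)⁻¹) *
      Matrix.of (fun i k => N.mulVec (x i) k) := by
    rw [← sum_vec]
    rfl
  rw [h1, Matrix.det_mul, Matrix.det_mul, Matrix.det_eq_zero_of_column_eq_zero i₀, zero_mul, zero_mul]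
  intro k
  rw [Matrix.of_apply, h]
  rfl

end OKUN_

theorem okun_proof (hOku : Stmt_Oku) : Stmt_OkuN := by
  intro m A E N hO
  obtain ⟨S, x, hF, hdet, hBf⟩ := hOku m A E N hO
  refine ⟨S, x, hF, ?_, hdet, hBf⟩
  intro i h0
  have hEdet : E.det ≠ 0 := by
    have h1 : E.det = ∏ i, E i i := Matrix.det_of_lowerTriangular E (by
      intro i j hij
      exact hO.tri i j hij)
    rw [h1, Finset.prod_ne_zero_iff]
    intro i _
    exact (hO.dia i).1
  obtain ⟨s, hs⟩ := (Set.finite_range S).infinite_compl.nonempty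
  have hs' : ∀ i, s ≠ S i := fun i hi => hs ⟨i, hi.symm⟩
  have h1 := OKUN_.det_Bf N S x s i h0
  rw [hBf s hs', Matrix.det_mul] at h1
  have hu : IsUnit (s • (1 : Matrix (Fin m) (Fin m) ℂ) + A).det :=
    isUnit_iff_ne_zero.2 ((hdet s).2 hs')
  rcases mul_eq_zero.1 h1 with h2 | h2
  · have h3 := congrArg Matrix.det (Matrix.mul_nonsing_inv _ hu)
    rw [Matrix.det_mul, h2, mul_zero, Matrix.det_one] at h3
    exact zero_ne_one h3
  · exact hEdet h2

end Pool.Agent.GPJ
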