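import Pool.Agent.GPJ.Stmts

/-!
# GPJ: SHIFTJ, polynomial relations are invariant under the unipotent local monodromies,
several Fuchsian systems
-/

open scoped BigOperators Topology
open Metric Set MeasureTheory

namespace Pool.Agent.GPJ

open Pool.Agent.GPH

namespace SHIFTJ_

noncomputable section

lemma diff_eval {V : Type} (P : MvPolynomial V ℂ) (f : ℂ → V → ℂ) (s : Set ℂ)
    (hf : ∀ v, DifferentiableOn ℂ (fun t => f t v) s) :
    DifferentiableOn ℂ (fun t => MvPolynomial.eval (f t) P) s := by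
  induction P using MvPolynomial.induction_on with
  | C a => simp
  | add p q hp hq =>
    simp only [map_add]
    exact hp.add hq
  | mul_X p v hp =>
    simp only [map_mul, MvPolynomial.eval_X]
    exact hp.mul (hf v)

lemma res_sq {m : ℕ} (N : Matrix (Fin m) (Fin m) ℂ) (hN : N.transpose = -N) (v : Fin m → ℂ) :
    res N v * res N v = 0 := by
  unfold res
  rw [Matrix.vecMulVec_mul_vecMulVec]
  have h0 : N.mulVec v ⬝ᵥ v = 0 := by
    have h1 : v ⬝ᵥ N.mulVec v = -(v ⬝ᵥ N.mulVec v) := by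
      conv_lhs => rw [Matrix.dotProduct_mulVec, ← Matrix.mulVec_transpose, hN,
        Matrix.neg_mulVec, neg_dotProduct, dotProduct_comm]
    rw [dotProduct_comm]
    have h2 : (2 : ℂ) * (v ⬝ᵥ N.mulVec v) = 0 := by linear_combination h1
    simpa using h2
  rw [h0]
  simp

/-- A common radius. -/
lemma common {I : Type} [Fintype I] [Nonempty I] (r : I → ℝ) (hr : ∀ k, 0 < r k) :
    ∃ ρ : ℝ, 0 < ρ ∧ ∀ k, ρ ≤ r k := by
  obtain ⟨k0, -, hk0⟩ := Finset.exists_min_image Finset.univ r Finset.univ_nonempty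
  exact ⟨r k0, hr k0, fun k => hk0 k (Finset.mem_univ k)⟩

end

end SHIFTJ_

open SHIFTJ_ in
/-- SHIFTJ -/
theorem shiftj_proof (hL : HGP.Stmt_LogSh) (hG : GPH.Stmt_GeoC) : Stmt_ShiftJ := by
  intro I _ _ m p N S x hF b hgen Φ hΦ i v hloc ι _ P h hP c
  obtain ⟨hopen, hbmem, hstar, -⟩ := hG p S b hgen.1
  choose r0 H hr0 hH0 _ hform0 using hloc
  obtain ⟨r, hr, hrle⟩ := common r0 hr0
  have hH : ∀ k, HolM (ball 0 r) (H k) := fun k a d =>
    (hH0 k a d).mono (ball_subset_ball (hrle k))
  have hform := fun k (t : ℂ) (ht : t ∈ ball (0 : ℂ) r) =>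
    hform0 k t (ball_subset_ball (hrle k) ht)
  have hSb : S i - b ≠ 0 := sub_ne_zero.mpr (hgen.1 i)
  set R : ∀ k, Matrix (Fin (m k)) (Fin (m k)) ℂ := fun k => res (N k) (v k) with hR
  have hR2 : ∀ k, R k * R k = 0 := fun k => res_sq (N k) (hF k).anti (v k)
  -- the families
  set hh : Option (Σ k, Fin (m k) × ι k) → ℂ → ℂ := fun o t =>
    o.elim (S i + t * (S i - b)) (fun q => (H q.1 t * h q.1) q.2.1 q.2.2) with hhh
  set ee : Option (Σ k, Fin (m k) × ι k) → ℂ → ℂ := fun o t =>
    o.elim 0 (fun q => (H q.1 t * (R q.1 * h q.1)) q.2.1 q.2.2) with hee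
  have hreal : ∀ t : ℂ, 0 < t.im → ∀ u : ℝ, 0 ≤ u → t ≠ u := by
    rintro t ht u _ rfl
    simp at ht
  have hplog : ∀ t : ℂ, 0 < t.im → plog t = Complex.log t := by
    intro t ht
    unfold plog
    rw [HGP.log_neg ht]; ring
  have hdm : ∀ (k : I) (A : Matrix (Fin (m k)) (ι k) ℂ) (q : Fin (m k) × ι k),
      DifferentiableOn ℂ (fun t => (H k t * A) q.1 q.2) (ball 0 r) := by
    intro k A q
    simp only [Matrix.mul_apply]
    apply DifferentiableOn.fun_sum
    intro l _
    exact (hH k q.1 l).mul_const _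
  have hhd : ∀ o, DifferentiableOn ℂ (hh o) (ball ((0 : ℝ) : ℂ) r) := by
    intro o
    rw [Complex.ofReal_zero]
    rcases o with _ | q
    · show DifferentiableOn ℂ (fun t : ℂ => S i + t * (S i - b)) (ball 0 r)
      exact (differentiableOn_const _).add (differentiableOn_id.mul_const _)
    · exact hdm q.1 (h q.1) q.2
  have hed : ∀ o, DifferentiableOn ℂ (ee o) (ball ((0 : ℝ) : ℂ) r) := by
    intro o
    rw [Complex.ofReal_zero]
    rcases o with _ | q
    · show DifferentiableOn ℂ (fun _ : ℂ => (0 : ℂ)) (ball 0 r)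
      exact differentiableOn_const _
    · exact hdm q.1 (R q.1 * h q.1) q.2
  have hren : ∀ (t : ℂ) (f : Option (Σ k, Fin (m k) × ι k) → ℂ),
      MvPolynomial.eval (HGP.opt t f) (MvPolynomial.rename some P) = MvPolynomial.eval f P := by
    intro t f
    rw [MvPolynomial.eval_rename]
    rfl
  have hcomp : ∀ (k : I) (t : ℂ) (a : ℂ),
      H k t * (1 + a • R k) * h k = H k t * h k + a • (H k t * (R k * h k)) := by
    intro k t a
    rw [Matrix.mul_add, Matrix.add_mul, Matrix.mul_one, Matrix.mul_smul, Matrix.smul_mul,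
      Matrix.mul_assoc]
  obtain ⟨k0⟩ := (inferInstance : Nonempty I)
  have key := hL (Option (Σ k, Fin (m k) × ι k)) 0 r hh ee hr hhd hed
    (MvPolynomial.rename some P) (by
    intro t ht htim
    rw [hren]
    rw [Complex.ofReal_zero] at ht ⊢
    rw [sub_zero]
    obtain ⟨h1, -⟩ := hform k0 t ht (hreal t htim)
    have h3 := hP _ h1
    rw [← h3]
    congr 1
    congr 1
    funext o
    rcases o with _ | q
    · show S i + t * (S i - b) + Complex.log t * 0 = S i + t * (S i - b)
      ring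
    · have h2 := (hform q.1 t ht (hreal t htim)).2
      show (H q.1 t * h q.1) q.2.1 q.2.2 + Complex.log t * (H q.1 t * (R q.1 * h q.1)) q.2.1 q.2.2
        = (Φ q.1 (S i + t * (S i - b)) * h q.1) q.2.1 q.2.2
      rw [h2, hplog t htim]
      show (H q.1 t * h q.1) q.2.1 q.2.2 + Complex.log t * (H q.1 t * (R q.1 * h q.1)) q.2.1 q.2.2
        = (H q.1 t * ((1 : Matrix (Fin (m q.1)) (Fin (m q.1)) ℂ) + Complex.log t • R q.1) *
          h q.1 : Matrix (Fin (m q.1)) (ι q.1) ℂ) q.2.1 q.2.2
      rw [hcomp]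
      simp)
  -- the conclusion on the half disc
  have hup : ∀ t ∈ ball (0 : ℂ) r, 0 < t.im →
      MvPolynomial.eval (HGP.opt (S i + t * (S i - b)) (fun q : Σ k, Fin (m k) × ι k =>
        (Φ q.1 (S i + t * (S i - b)) *
        (((1 : Matrix (Fin (m q.1)) (Fin (m q.1)) ℂ) + c • R q.1) * h q.1) :
          Matrix (Fin (m q.1)) (ι q.1) ℂ) q.2.1 q.2.2)) P = 0 := by
    intro t ht htim
    have h1 := key (Complex.log t + c) t (by rwa [Complex.ofReal_zero])
    rw [hren] at h1
    rw [← h1]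
    congr 1
    congr 1
    funext o
    rcases o with _ | q
    · show S i + t * (S i - b) = S i + t * (S i - b) + (Complex.log t + c) * 0
      ring
    · show (Φ q.1 (S i + t * (S i - b)) *
        (((1 : Matrix (Fin (m q.1)) (Fin (m q.1)) ℂ) + c • R q.1) * h q.1) :
          Matrix (Fin (m q.1)) (ι q.1) ℂ) q.2.1 q.2.2 =
        (H q.1 t * h q.1) q.2.1 q.2.2 +
          (Complex.log t + c) * (H q.1 t * (R q.1 * h q.1)) q.2.1 q.2.2
      have h2 : Φ q.1 (S i + t * (S i - b)) *
          (((1 : Matrix (Fin (m q.1)) (Fin (m q.1)) ℂ) + c • R q.1) * h q.1) =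
          H q.1 t * (1 + (Complex.log t + c) • R q.1) * h q.1 := by
        rw [(hform q.1 t ht (hreal t htim)).2, hplog t htim, ← Matrix.mul_assoc]
        congr 1
        rw [Matrix.mul_assoc]
        congr 1
        show (1 + Complex.log t • R q.1) * (1 + c • R q.1) = _
        rw [Matrix.mul_add, Matrix.mul_one, Matrix.mul_smul, Matrix.add_mul, Matrix.smul_mul,
          hR2, smul_zero, add_zero, Matrix.one_mul, add_smul, add_assoc]
      rw [h2, hcomp]
      simp
  -- identity theorem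
  have hpre : IsPreconnected (Cut b S) := (hstar.isPathConnected hbmem).isConnected.isPreconnected
  have hdiff : DifferentiableOn ℂ (fun s => MvPolynomial.eval
      (HGP.opt s (fun q : Σ k, Fin (m k) × ι k => (Φ q.1 s *
        (((1 : Matrix (Fin (m q.1)) (Fin (m q.1)) ℂ) + c • R q.1) * h q.1) :
          Matrix (Fin (m q.1)) (ι q.1) ℂ) q.2.1 q.2.2)) P)
      (Cut b S) := by
    apply diff_eval P (fun s => HGP.opt s (fun q : Σ k, Fin (m k) × ι k => (Φ q.1 s *
        (((1 : Matrix (Fin (m q.1)) (Fin (m q.1)) ℂ) + c • R q.1) * h q.1) :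
          Matrix (Fin (m q.1)) (ι q.1) ℂ) q.2.1 q.2.2))
    intro o
    rcases o with _ | q
    · exact differentiableOn_id
    · show DifferentiableOn ℂ (fun s => (Φ q.1 s *
        (((1 : Matrix (Fin (m q.1)) (Fin (m q.1)) ℂ) + c • R q.1) * h q.1) :
          Matrix (Fin (m q.1)) (ι q.1) ℂ) q.2.1 q.2.2) (Cut b S)
      simp only [Matrix.mul_apply (M := Φ _ _)]
      apply DifferentiableOn.fun_sum
      intro k _
      apply DifferentiableOn.mul_const
      intro s hs
      exact ((hΦ q.1).sol s hs q.2.1 k).differentiableAt.differentiableWithinAt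
  have hana := hdiff.analyticOnNhd hopen
  set t0 : ℂ := ((r / 2 : ℝ) : ℂ) * Complex.I with ht0
  have ht0im : 0 < t0.im := by
    simp [ht0]
    positivity
  have ht0b : t0 ∈ ball (0 : ℂ) r := by
    rw [mem_ball_zero_iff, ht0]
    simp only [norm_mul, Complex.norm_I, mul_one, Complex.norm_real]
    rw [Real.norm_of_nonneg (by positivity)]
    linarith
  have hs0 : S i + t0 * (S i - b) ∈ Cut b S := (hform k0 t0 ht0b (hreal t0 ht0im)).1
  have hU : {t : ℂ | 0 < t.im} ∩ ball 0 r ∈ 𝓝 t0 :=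
    Filter.inter_mem ((isOpen_lt continuous_const Complex.continuous_im).mem_nhds ht0im)
      (isOpen_ball.mem_nhds ht0b)
  have hcont : Filter.Tendsto (fun s : ℂ => (s - S i) / (S i - b)) (𝓝 (S i + t0 * (S i - b)))
      (𝓝 t0) := by
    have h1 : ContinuousAt (fun s : ℂ => (s - S i) / (S i - b)) (S i + t0 * (S i - b)) := by
      fun_prop
    have h2 : (S i + t0 * (S i - b) - S i) / (S i - b) = t0 := by
      field_simp
      ring
    have h3 := h1.tendsto
    simp only [h2] at h3
    exact h3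
  have hev : (fun s => MvPolynomial.eval
      (HGP.opt s (fun q : Σ k, Fin (m k) × ι k => (Φ q.1 s *
        (((1 : Matrix (Fin (m q.1)) (Fin (m q.1)) ℂ) + c • R q.1) * h q.1) :
          Matrix (Fin (m q.1)) (ι q.1) ℂ) q.2.1 q.2.2)) P)
      =ᶠ[𝓝 (S i + t0 * (S i - b))] 0 := by
    filter_upwards [hcont hU] with s hs
    obtain ⟨h1, h2⟩ := hs
    have h3 := hup _ h2 h1
    have h4 : S i + (s - S i) / (S i - b) * (S i - b) = s := by
      field_simp
      ring
    rw [h4] at h3
    exact h3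
  intro s hs
  exact hana.eqOn_zero_of_preconnected_of_eventuallyEq_zero hpre hs0 hev hs

end Pool.Agent.GPJ
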