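import Pool.Agent.GPJ.Stmts

/-!
# GPJ: relations hold on the whole product of the torsors (several Fuchsian systems)
-/

open scoped BigOperators Topology
open Metric Set

namespace Pool.Agent.GPJ

open Pool.Agent.GPH

namespace THMJX

lemma diff_eval {α : Type} {S : Set ℂ} (f : α → ℂ → ℂ) (hf : ∀ i, DifferentiableOn ℂ (f i) S)
    (P : MvPolynomial (Option α) ℂ) :
    DifferentiableOn ℂ (fun t => MvPolynomial.eval (HGP.opt t (fun p => f p t)) P) S := by
  induction P using MvPolynomial.induction_on with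
  | C c => simp
  | add p q hp hq =>
    simp only [map_add]
    exact hp.add hq
  | mul_X p i hp =>
    simp only [map_mul, MvPolynomial.eval_X]
    refine hp.mul ?_
    cases i with
    | none => exact differentiableOn_id
    | some i => exact hf i

/-- A holomorphic function on a preconnected open set which vanishes near a point. -/
lemma ident {U : Set ℂ} (hU : IsOpen U) (hc : IsPreconnected U) {f : ℂ → ℂ}
    (hf : DifferentiableOn ℂ f U) {b : ℂ} {r : ℝ} (hr : 0 < r) (hb : b ∈ U)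
    (h0 : ∀ s ∈ ball b r, f s = 0) : ∀ s ∈ U, f s = 0 := by
  intro s hs
  have ha : AnalyticOnNhd ℂ f U := hf.analyticOnNhd hU
  have h1 : f =ᶠ[𝓝 b] 0 := by
    filter_upwards [ball_mem_nhds b hr] with z hz
    exact h0 z hz
  exact ha.eqOn_zero_of_preconnected_of_eventuallyEq_zero hc hb h1 hs

lemma hol_mul {m : ℕ} {ι : Type} {U : Set ℂ} {Φ : ℂ → Matrix (Fin m) (Fin m) ℂ}
    (hΦ : ∀ i j, DifferentiableOn ℂ (fun z => Φ z i j) U) (h : Matrix (Fin m) ι ℂ) (q : Fin m × ι) :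
    DifferentiableOn ℂ (fun z => (Φ z * h) q.1 q.2) U := by
  simp only [Matrix.mul_apply]
  exact DifferentiableOn.fun_sum fun k _ => (hΦ q.1 k).mul_const _

/-- `W = Φ W(b)` near `b`. -/
lemma eq_fund (hUn : Stmt_Uniq) {m p : ℕ} {ι : Type} (N : Matrix (Fin m) (Fin m) ℂ) (S : Fin p → ℂ)
    (x : Fin p → Fin m → ℂ) (b : ℂ) (Φ : ℂ → Matrix (Fin m) (Fin m) ℂ) (hΦ : Fund N S x b Φ)
    (r : ℝ) (hr : 0 < r) (hrC : ball b r ⊆ Cut b S) (hoff : ∀ z ∈ Cut b S, ∀ i, z ≠ S i)
    (W : ℂ → Matrix (Fin m) ι ℂ) (hW : MSol (ball b r) (Bf N S x) W) :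
    ∀ z ∈ ball b r, W z = Φ z * W b := by
  have hcol : ∀ j, ∀ z ∈ ball b r, (fun k => W z k j - (Φ z * W b) k j) = 0 := by
    intro j
    refine hUn (Fin m) (ball b r) (Bf N S x) isOpen_ball
      (convex_ball b r).isPreconnected ?_ (fun z k => W z k j - (Φ z * W b) k j) ?_ b
      (mem_ball_self hr) ?_
    · intro k l z hz
      have hz' := hoff z (hrC hz)
      unfold Bf
      simp only [Matrix.sum_apply, Matrix.smul_apply, smul_eq_mul]
      refine DifferentiableAt.differentiableWithinAt ?_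
      refine DifferentiableAt.fun_sum fun i _ => ?_
      refine DifferentiableAt.mul_const ?_ _
      exact ((differentiableAt_id.sub_const _).inv (sub_ne_zero.mpr (hz' i)))
    · intro z hz k
      have h1 := hW z hz k j
      have h2 : HasDerivAt (fun z => (Φ z * W b) k j) ((Bf N S x z * (Φ z * W b)) k j) z := by
        have h3 : ∀ l, HasDerivAt (fun z => Φ z k l * W b l j)
            ((Bf N S x z * Φ z) k l * W b l j) z := fun l => (hΦ.sol z (hrC hz) k l).mul_const _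
        have h4 := HasDerivAt.fun_sum (u := Finset.univ) fun l _ => h3 l
        rw [← Matrix.mul_assoc]
        simp only [Matrix.mul_apply] at h4 ⊢
        exact h4
      have h5 := h1.sub h2
      refine h5.congr_deriv ?_
      simp only [Matrix.mulVec, dotProduct, Matrix.mul_apply (M := Bf N S x z)]
      rw [← Finset.sum_sub_distrib]
      exact Finset.sum_congr rfl fun l _ => by ring
    · funext k
      simp [hΦ.one]
  intro z hz
  ext k j
  have := congrFun (hcol j z hz) k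
  simpa [sub_eq_zero] using this

/-- The torsor in terms of isometries. -/
lemma exists_iso {g : ℕ} {N : Matrix (Fin (2 * g)) (Fin (2 * g)) ℂ} (hNd : N.det ≠ 0) {lam : ℂ}
    (hlam : lam ≠ 0) {W M : Matrix (Fin (2 * g)) (HGP.Ix g) ℂ}
    (hW : W.transpose * N * W = lam • Matrix.J (Fin g) ℂ)
    (hM : M.transpose * N * M = lam • Matrix.J (Fin g) ℂ)
    {Φ : Matrix (Fin (2 * g)) (Fin (2 * g)) ℂ} (hiso : Φ.transpose * N * Φ = N) :
    ∃ h : Matrix (Fin (2 * g)) (Fin (2 * g)) ℂ, h.transpose * N * h = N ∧ Φ * (h * W) = M := by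
  have hJ2 : Matrix.J (Fin g) ℂ * Matrix.J (Fin g) ℂ = -1 := Matrix.J_squared (Fin g) ℂ
  set Wi : Matrix (HGP.Ix g) (Fin (2 * g)) ℂ :=
    (-lam⁻¹) • (Matrix.J (Fin g) ℂ * W.transpose * N) with hWi
  have hWi1 : Wi * W = 1 := by
    rw [hWi, Matrix.smul_mul, Matrix.mul_assoc, Matrix.mul_assoc, ← Matrix.mul_assoc _ N, hW,
      Matrix.mul_smul, hJ2, smul_smul, neg_mul, inv_mul_cancel₀ hlam]
    simp
  have hWi2 : W * Wi = 1 := by
    have hcard : Fintype.card (HGP.Ix g) = Fintype.card (Fin (2 * g)) := by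
      simp [HGP.Ix, two_mul]
    exact (Matrix.mul_eq_one_comm_of_card_eq _ _ _ hcard).mp hWi1
  have hdet : IsUnit Φ.det := by
    rw [isUnit_iff_ne_zero]
    intro h0
    have h1 := congrArg Matrix.det hiso
    rw [Matrix.det_mul, Matrix.det_mul, h0, mul_zero] at h1
    exact hNd h1.symm
  have h1 : Φ * Φ⁻¹ = 1 := Matrix.mul_nonsing_inv _ hdet
  have h1' : (Φ⁻¹).transpose * Φ.transpose = 1 := by
    rw [← Matrix.transpose_mul, h1, Matrix.transpose_one]
  have h2 : (Φ⁻¹).transpose * N * Φ⁻¹ = N := by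
    calc (Φ⁻¹).transpose * N * Φ⁻¹
        = (Φ⁻¹).transpose * (Φ.transpose * N * Φ) * Φ⁻¹ := by rw [hiso]
      _ = ((Φ⁻¹).transpose * Φ.transpose) * N * (Φ * Φ⁻¹) := by
          simp only [Matrix.mul_assoc]
      _ = N := by rw [h1, h1', Matrix.one_mul, Matrix.mul_one]
  refine ⟨Φ⁻¹ * (M * Wi), ?_, ?_⟩
  · calc (Φ⁻¹ * (M * Wi)).transpose * N * (Φ⁻¹ * (M * Wi))
        = Wi.transpose * (M.transpose * ((Φ⁻¹).transpose * N * Φ⁻¹) * M) * Wi := by
          simp only [Matrix.transpose_mul, Matrix.mul_assoc]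
      _ = Wi.transpose * (W.transpose * N * W) * Wi := by rw [h2, hM, hW]
      _ = (W * Wi).transpose * N * (W * Wi) := by
          simp only [Matrix.transpose_mul, Matrix.mul_assoc]
      _ = N := by rw [hWi2, Matrix.transpose_one, Matrix.one_mul, Matrix.mul_one]
  · rw [Matrix.mul_assoc, Matrix.mul_assoc, hWi1, Matrix.mul_one, ← Matrix.mul_assoc, h1,
      Matrix.one_mul]

end THMJX

open THMJX in
theorem thmj_proof (hGB : Stmt_GeoB) (hGC : Stmt_GeoC) (hUn : Stmt_Uniq) (hFu : Stmt_Fund)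
    (hLo : Stmt_Locf) (hCo : Stmt_CommS) (hLV : Stmt_LocV) (hSh : Stmt_ShiftJ)
    (hGr : Stmt_GrpJ) : Stmt_ThmJ := by
  intro I _ g p N S x hg hF lam hlam b0 ρ hρ hball W hW hLeg P hP s M hM
  -- the last step
  have hlast : ∀ (b : ℂ) (r : ℝ), 0 < r →
      (∀ z ∈ ball b r, MvPolynomial.eval (HGP.opt z
        (fun q : Σ k, Fin (2 * g k) × HGP.Ix (g k) => M q.1 q.2.1 q.2.2)) P = 0) →
      MvPolynomial.eval (HGP.opt s
        (fun q : Σ k, Fin (2 * g k) × HGP.Ix (g k) => M q.1 q.2.1 q.2.2)) P = 0 := by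
    intro b r hr hz
    have hd := diff_eval (S := Set.univ)
      (fun (q : Σ k, Fin (2 * g k) × HGP.Ix (g k)) (_ : ℂ) => M q.1 q.2.1 q.2.2)
      (fun q => differentiableOn_const _) P
    exact ident isOpen_univ isPreconnected_univ hd hr (Set.mem_univ b) hz s (Set.mem_univ s)
  rcases isEmpty_or_nonempty I with hI | hI
  · apply hlast b0 ρ hρ
    intro z hz
    have h1 := hP z hz
    have h2 : (fun q : Σ k, Fin (2 * g k) × HGP.Ix (g k) => M q.1 q.2.1 q.2.2) =
        (fun q : Σ k, Fin (2 * g k) × HGP.Ix (g k) => W q.1 z q.2.1 q.2.2) := by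
      funext q
      exact (hI.false q.1).elim
    rw [h2]
    exact h1
  obtain ⟨k0⟩ := hI
  have : Nonempty I := ⟨k0⟩
  obtain ⟨b, hb, hpos⟩ := hGB p S (hF.fuchs k0).inj b0 ρ hρ
  obtain ⟨hCopen, hbC, hCstar, hCoff⟩ := hGC p S b hpos.1
  have hCpre : IsPreconnected (Cut b S) :=
    (hCstar.isPathConnected hbC).isConnected.isPreconnected
  choose Φ hΦ using fun k => hFu (2 * g k) p (N k) S (x k) (hF.fuchs k) b hpos.1
  choose v hv using fun k i => hLo (2 * g k) p (N k) S (x k) (hF.fuchs k) b hpos (Φ k) (hΦ k) i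
  have hcomm := fun k => hCo (2 * g k) p (N k) S (x k) (hF.fuchs k) b hpos (Φ k) (hΦ k) (v k) (hv k)
  have hGH : GrpH N v := by
    refine ⟨hg, fun k => (hF.fuchs k).anti, fun k => (hF.fuchs k).det,
      fun k => ⟨W k b, lam, hlam, hLeg k b hb⟩, hcomm, ?_⟩
    intro k l hkl
    obtain ⟨j, hj⟩ := hF.sep k l hkl
    refine ⟨j, ?_⟩
    rw [hLV (2 * g k) p (N k) S (x k) (hF.fuchs k) b hpos (Φ k) (hΦ k) j (v k j) (hv k j),
      hLV (2 * g l) p (N l) S (x l) (hF.fuchs l) b hpos (Φ l) (hΦ l) j (v l j) (hv l j)]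
    exact hj
  have hgrp := hGr I g p N v hGH
  have hΦd : ∀ k i j, DifferentiableOn ℂ (fun z => Φ k z i j) (Cut b S) := fun k i j z hz =>
    ((hΦ k).sol z hz i j).differentiableAt.differentiableWithinAt
  -- a small ball around `b`
  obtain ⟨r1, hr1, hr1s⟩ := Metric.isOpen_iff.mp hCopen b hbC
  obtain ⟨r2, hr2, hr2s⟩ := Metric.isOpen_iff.mp isOpen_ball b hb
  set r := min r1 r2 with hr
  have hrpos : 0 < r := lt_min hr1 hr2
  have hrC : ball b r ⊆ Cut b S := (ball_subset_ball (min_le_left _ _)).trans hr1s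
  have hrB : ball b r ⊆ ball b0 ρ := (ball_subset_ball (min_le_right _ _)).trans hr2s
  have hWΦ : ∀ k, ∀ z ∈ ball b r, W k z = Φ k z * W k b := by
    intro k
    apply eq_fund hUn (N k) S (x k) b (Φ k) (hΦ k) r hrpos hrC hCoff (W k)
    intro z hz
    exact hW k z (hrB hz)
  -- the relation on the cut plane
  have hQ0 : ∀ z ∈ Cut b S, MvPolynomial.eval (HGP.opt z
      (fun q : Σ k, Fin (2 * g k) × HGP.Ix (g k) => (Φ q.1 z * W q.1 b) q.2.1 q.2.2)) P = 0 := by
    have hd := diff_eval (S := Cut b S)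
      (fun (q : Σ k, Fin (2 * g k) × HGP.Ix (g k)) z => (Φ q.1 z * W q.1 b) q.2.1 q.2.2)
      (fun q => hol_mul (hΦd q.1) (W q.1 b) q.2) P
    refine ident hCopen hCpre hd hrpos hbC ?_
    intro z hz
    have h1 := hP z (hrB hz)
    have h2 : (fun q : Σ k, Fin (2 * g k) × HGP.Ix (g k) => W q.1 z q.2.1 q.2.2) =
        (fun q : Σ k, Fin (2 * g k) × HGP.Ix (g k) => (Φ q.1 z * W q.1 b) q.2.1 q.2.2) := by
      funext q
      rw [hWΦ q.1 z hz]
    rw [h2] at h1
    exact h1
  have hQ : ∀ h ∈ Submonoid.closure (TVJ N v),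
      ∀ h' : ∀ k, Matrix (Fin (2 * g k)) (HGP.Ix (g k)) ℂ,
      (∀ z ∈ Cut b S, MvPolynomial.eval (HGP.opt z
        (fun q : Σ k, Fin (2 * g k) × HGP.Ix (g k) => (Φ q.1 z * h' q.1) q.2.1 q.2.2)) P = 0) →
      ∀ z ∈ Cut b S, MvPolynomial.eval (HGP.opt z
        (fun q : Σ k, Fin (2 * g k) × HGP.Ix (g k) =>
          (Φ q.1 z * (h q.1 * h' q.1)) q.2.1 q.2.2)) P = 0 := by
    intro h hh
    induction hh using Submonoid.closure_induction with
    | mem h hh =>
      obtain ⟨j, c, rfl⟩ := hh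
      intro h' hh' z hz
      exact hSh I (fun k => 2 * g k) p N S x hF.fuchs b hpos Φ hΦ j (fun k => v k j)
        (fun k => hv k j) (fun k => HGP.Ix (g k)) P h' hh' c z hz
    | one =>
      intro h' hh' z hz
      simp only [Pi.one_apply, Matrix.one_mul]
      exact hh' z hz
    | mul h1 h2 _ _ ih1 ih2 =>
      intro h' hh' z hz
      simp only [Pi.mul_apply, Matrix.mul_assoc]
      exact ih1 (fun k => h2 k * h' k) (ih2 h' hh') z hz
  -- all the points of the torsor over the cut plane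
  apply hlast b r hrpos
  intro z hz
  have hzC := hrC hz
  choose h hh1 hh2 using fun k => exists_iso (hF.fuchs k).det hlam (hLeg k b hb) (hM k)
    ((hΦ k).iso z hzC)
  have h4 := hQ h (hgrp h hh1) (fun k => W k b) hQ0 z hzC
  have h5 : (fun q : Σ k, Fin (2 * g k) × HGP.Ix (g k) =>
      (Φ q.1 z * (h q.1 * W q.1 b)) q.2.1 q.2.2) =
      (fun q : Σ k, Fin (2 * g k) × HGP.Ix (g k) => M q.1 q.2.1 q.2.2) := by
    funext q
    rw [hh2 q.1]
  rw [h5] at h4
  exact h4

end Pool.Agent.GPJ
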