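import Pool.Agent.GPH.Main
import Pool.Agent.GPJ.AFF
import Pool.Agent.GPJ.COMMON
import Pool.Agent.GPJ.FIBJ
import Pool.Agent.GPJ.GRPJ
import Pool.Agent.GPJ.GRPP
import Pool.Agent.GPJ.LOCV
import Pool.Agent.GPJ.OKUN
import Pool.Agent.GPJ.SHIFTJ
import Pool.Agent.GPJ.THMJ

/-!
# GPJ: assembly
-/

namespace Pool.Agent.GPJ.Final

open Pool.Agent.GPH Pool.Agent.GPJ

theorem grpP : Stmt_GrpP := grpp_proof GPH.Main.grp grpa_proof (grpb_proof HGP.Main.genb)
theorem grpJ : Stmt_GrpJ := grpj_proof grpP GPH.Main.grp grpa_proof (grpb_proof HGP.Main.genb)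
theorem shiftJ : Stmt_ShiftJ := shiftj_proof HGP.logsh_proof GPH.Main.geoC
theorem thmJ : Stmt_ThmJ := thmj_proof geob_proof GPH.Main.geoC GPH.Main.uniq GPH.Main.fund
  GPH.Main.locf GPH.Main.comms locv_proof shiftJ grpJ
theorem fibJ : Stmt_FibJ := fibj_proof (okun_proof oku_proof) aff_proof common_proof thmJ
  hor_proof ceig_proof cdet_proof GPH.Main.ccom dtri_proof

end Pool.Agent.GPJ.Final
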